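import Pool.Agent.X242.UW7
import Pool.Agent.X298.ST.Main

/-!
# Ratios of successive critical values and Galois equivariant approximations with universal rational weights

Let `E` be a number field and `b_n ∈ E` the Dirichlet coefficients of the finite part of the `L`-function of a motive `M` with
coefficients in `E`: for every embedding `τ : E → ℂ` one has `L^τ(s) = ∑ τ(b_n) n^{-s}`, absolutely convergent in a right half
plane, continued to a meromorphic function which is holomorphic at `m` and `m + 1`, with `L^τ(m + 1) ≠ 0`.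

Fix `γ > π/2` and rational numbers `ρ_N(n)`, for every `N` almost all of them zero, with
`|ρ_N(n) - Re (e^{iγ log n / N} / Γ(1 + log n / N))| ≤ 1 / (N n²)`. They exist, and depend on nothing. Let `k ≥ 2` be such that
the series converge absolutely for `Re s > m + k`, and

`x_N = ∑_n ρ_N(n^k) n^{-m} b_n`, `y_N = ∑_n ρ_N(n^{k-1}) n^{-m-1} b_n`,

finite sums, elements of `E`.

1. `τ(x_N) = L^τ(m) + O(1/N)` and `τ(y_N) = L^τ(m + 1) + O(1/N)` for all `τ`: also outside of the half plane of convergence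
   the values are the limits of explicit elements of `E`.
2. `z_N = x_N / y_N ∈ E` satisfies `τ(z_N) = L^τ(m) / L^τ(m + 1) + O(1/N)` for all `τ`.
3. Let `Ω^τ ≠ 0` be any complex numbers (in Q1 `(i^{d_F/2} Δ_F)^n` divided by the quotient of the archimedean factors).
   Equivalent are: (a) there is an `e ∈ E`, `e ≠ 0`, with `L^τ(m) / L^τ(m + 1) = τ(e) Ω^τ` for all `τ` (Q1 for `M` and
   `m`); (b) there is an `e ∈ E`, `e ≠ 0`, with `Ω^τ = lim τ(e z_N)` for all `τ`; (c) the `L^τ(m)` are nonzero and for some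
   `D ≥ 1` the vectors `(D τ(z_N) / Ω^τ)_τ` come arbitrarily close to the lattice of the integers of `E` for arbitrarily
   large `N`.
-/

set_option autoImplicit false

open Filter Topology Asymptotics
open IsDedekindDomain NumberField

namespace Pool.Agent.Results.MP_c63a07_nt.EquivariantRatioApproximations

open Pool.Agent.X298.ST Pool.Agent.X242.DR

section

variable {E : Type} [Field E] [NumberField E]

/-- The `L^τ` are the continuations of the series `∑ τ(b_n) n^{-s}`, absolutely convergent for `Re s > m + k`, meromorphic,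
holomorphic at `m` and at `m + 1`, and nonzero at `m + 1`. -/
structure IsData (m : ℤ) (k : ℕ) (b : ℕ → E) (L : (E →+* ℂ) → ℂ → ℂ) : Prop where
  two_le : 2 ≤ k
  zero : b 0 = 0
  summable : ∀ (τ : E →+* ℂ) (s : ℂ), (m : ℝ) + k < s.re → LSeriesSummable (fun n => τ (b n)) s
  eq : ∀ (τ : E →+* ℂ) (s : ℂ), (m : ℝ) + k < s.re → L τ s = LSeries (fun n => τ (b n)) s
  mero : ∀ (τ : E →+* ℂ) (s : ℂ), MeromorphicAt (L τ) s
  an : ∀ τ : E →+* ℂ, AnalyticAt ℂ (L τ) m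
  an' : ∀ τ : E →+* ℂ, AnalyticAt ℂ (L τ) (m + 1)
  ne : ∀ τ : E →+* ℂ, L τ (m + 1) ≠ 0

/-- `∑_n ρ(n^k) n^{-m} b_n`, for `ρ = ρ_N` -/
noncomputable def approx (m : ℤ) (k : ℕ) (b : ℕ → E) (ρ : ℕ →₀ ℚ) : E :=
  comb ρ (powCoef k fun n : ℕ => (n : E) ^ (-m) * b n)

/-- `z_N = x_N / y_N` -/
noncomputable def ratio (m : ℤ) (k : ℕ) (b : ℕ → E) (ρ : ℕ →₀ ℚ) : E :=
  approx m k b ρ / approx (m + 1) (k - 1) b ρ

theorem approx_map (τ : E →+* ℂ) (m : ℤ) (k : ℕ) (b : ℕ → E) (ρ : ℕ →₀ ℚ) :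
    comb ρ (powCoef k fun n : ℕ => (n : ℂ) ^ (-m) * τ (b n)) = τ (approx m k b ρ) := by
  unfold approx
  rw [← comb_hom τ ρ]
  congr 1
  funext l
  have e1 := powCoef_map τ.toAddMonoidHom k (fun n : ℕ => (n : E) ^ (-m) * b n) l
  have e2 : (fun n : ℕ => τ.toAddMonoidHom ((n : E) ^ (-m) * b n)) =
      fun n : ℕ => (n : ℂ) ^ (-m) * τ (b n) := by
    funext n
    show τ _ = _
    rw [map_mul, map_zpow₀, map_natCast]
  rw [e2] at e1
  exact e1

theorem C_zero (γ : ℝ) : Ck 0 γ = 1 := by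
  unfold Ck
  simp [HH]

/-- The law at the integer `m`. -/
theorem law {m : ℤ} {k : ℕ} (hk : 1 ≤ k) {a : ℕ → ℂ} (ha : a 0 = 0) {Λ : ℂ → ℂ}
    (hs : ∀ s : ℂ, (m : ℝ) + k < s.re → LSeriesSummable a s)
    (he : ∀ s : ℂ, (m : ℝ) + k < s.re → Λ s = LSeries a s) (hmer : ∀ s : ℂ, MeromorphicAt Λ s)
    (han : AnalyticAt ℂ Λ m) {γ : ℝ} (hγ : Real.pi / 2 < γ) {ρ : ℕ → ℕ →₀ ℚ} (hρ : IsRational 0 γ ρ) :
    (fun N : ℕ => comb (ρ N) (powCoef k fun n : ℕ => (n : ℂ) ^ (-m) * a n) - Λ m) =O[atTop]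
      (fun N : ℕ => 1 / (N : ℝ)) := by
  -- `t = m + k - 1`
  set t : ℤ := m + k - 1 with ht
  set b : ℕ → ℂ := fun n => (n : ℂ) ^ (-t) * a n with hb
  have hterm : ∀ (s : ℂ) (n : ℕ), LSeries.term b s n = LSeries.term a (s + t) n := by
    intro s n
    rcases Nat.eq_zero_or_pos n with rfl | hn
    · rw [LSeries.term_zero, LSeries.term_zero]
    · have hn0 : (n : ℂ) ≠ 0 := by exact_mod_cast hn.ne'
      rw [LSeries.term_of_ne_zero hn.ne', LSeries.term_of_ne_zero hn.ne', Complex.cpow_add _ _ hn0,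
        Complex.cpow_intCast, hb]
      simp only
      rw [zpow_neg]
      have hz : (n : ℂ) ^ t ≠ 0 := zpow_ne_zero _ hn0
      have hc : (n : ℂ) ^ s ≠ 0 := by
        rw [Complex.cpow_def_of_ne_zero hn0]
        exact Complex.exp_ne_zero _
      field_simp
  have hre : ∀ s : ℂ, 1 < s.re → (m : ℝ) + k < (s + t).re := by
    intro s hs1
    rw [Complex.add_re, Complex.intCast_re, ht]
    push_cast
    linarith
  have hS : IsSeries b (fun s => Λ (s + t)) := by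
    refine ⟨fun σ hσ => ?_, fun s hs1 => ?_, fun x _ _ => ?_⟩
    · have h1 := hs ((σ : ℂ) + t) (hre _ (by simpa using hσ))
      exact (summable_congr fun n => hterm _ n).2 h1
    · show Λ (s + t) = LSeries b s
      rw [he _ (hre s hs1)]
      unfold LSeries
      exact tsum_congr fun n => (hterm s n).symm
    · have h2 : AnalyticAt ℂ (fun s : ℂ => s + t) (x : ℂ) := by fun_prop
      exact MeromorphicAt.comp_analyticAt (g := fun s : ℂ => s + t) (hmer _) h2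
  have e0 : (1 - k + t : ℂ) = m := by
    rw [ht]
    push_cast
    ring
  have hA : AnalyticAt ℂ (fun s : ℂ => Λ (s + t)) (1 - k) := by
    have h2 : AnalyticAt ℂ (fun s : ℂ => s + t) (1 - k : ℂ) := by fun_prop
    refine AnalyticAt.comp_of_eq (f := fun s : ℂ => s + t) han h2 e0
  have hθ : Tendsto (fun s : ℂ => (fun s : ℂ => Λ (s + t)) (s + (1 - k)) / s ^ 0) (𝓝[≠] 0) (𝓝 (Λ m)) := by
    have h3 : ContinuousAt (fun s : ℂ => Λ (s + (1 - k) + t)) 0 := by
      have h4 : AnalyticAt ℂ (fun s : ℂ => s + (1 - k) + t) (0 : ℂ) := by fun_prop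
      refine (AnalyticAt.comp_of_eq (f := fun s : ℂ => s + (1 - k) + t) han h4 ?_).continuousAt
      rw [zero_add]
      exact e0
    have h5 := h3.tendsto
    rw [zero_add, e0] at h5
    refine (h5.mono_left nhdsWithin_le_nhds).congr fun s => ?_
    simp only [pow_zero, div_one]
  have h := shift_law hS (by rw [hb]; simp [ha]) hk
    (fun x _ => MeromorphicAt.comp_analyticAt (g := fun s : ℂ => s + t) (hmer _) (by fun_prop)) hA
    (d := 0) hθ hγ (by rw [C_zero]; exact one_ne_zero) hρ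
  rw [pow_zero, one_mul] at h
  have e : (fun n : ℕ => (n : ℂ) ^ (k - 1) * b n) = fun n : ℕ => (n : ℂ) ^ (-m) * a n := by
    funext n
    rcases Nat.eq_zero_or_pos n with rfl | hn
    · simp [hb, ha]
    · have hn0 : (n : ℂ) ≠ 0 := by exact_mod_cast hn.ne'
      rw [hb]
      simp only
      rw [← mul_assoc, ← zpow_natCast, ← zpow_add₀ hn0]
      congr 2
      rw [ht]
      omega
  rw [e] at h
  exact h

/-- quotients -/
theorem quot_bigO {x y : ℕ → ℂ} {a b : ℂ} (hb : b ≠ 0)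
    (hx : (fun N : ℕ => x N - a) =O[atTop] fun N : ℕ => 1 / (N : ℝ))
    (hy : (fun N : ℕ => y N - b) =O[atTop] fun N : ℕ => 1 / (N : ℝ)) :
    (fun N : ℕ => x N / y N - a / b) =O[atTop] fun N : ℕ => 1 / (N : ℝ) := by
  have hyl : Tendsto y atTop (𝓝 b) := by
    have h1 := hy.trans_tendsto tendsto_one_div_atTop_nhds_zero_nat
    have h2 := h1.add_const b
    simpa using h2
  have h2 : ∀ᶠ N in atTop, y N ≠ 0 := hyl.eventually_ne hb
  have h3 : (fun N : ℕ => (1 / (y N * b)) * ((x N - a) * b - a * (y N - b))) =O[atTop]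
      fun N : ℕ => (1 : ℝ) * (1 / (N : ℝ)) := by
    refine IsBigO.mul ?_ ?_
    · have h4 : Tendsto (fun N : ℕ => 1 / (y N * b)) atTop (𝓝 (1 / (b * b))) :=
        tendsto_const_nhds.div (hyl.mul_const b) (mul_ne_zero hb hb)
      exact h4.isBigO_one ℝ
    · refine IsBigO.sub ?_ (hy.const_mul_left a)
      refine (hx.const_mul_left b).congr_left fun N => ?_
      ring
  simp only [one_mul] at h3
  refine h3.congr' ?_ EventuallyEq.rfl
  filter_upwards [h2] with N hN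
  field_simp
  ring

/-- the transition to real parameters -/
theorem floor_bigO {x : ℕ → ℂ} {a : ℂ} (h1 : (fun N : ℕ => x N - a) =O[atTop] fun N : ℕ => 1 / (N : ℝ)) :
    (fun T : ℝ => x ⌊T⌋₊ - a) =O[atTop] fun T : ℝ => 1 / T := by
  have h2 := h1.comp_tendsto (tendsto_nat_floor_atTop (α := ℝ))
  refine IsBigO.trans h2 ?_
  refine IsBigO.of_bound 2 ?_
  filter_upwards [eventually_ge_atTop (1 : ℝ)] with T hT
  have h3 : T < ⌊T⌋₊ + 1 := Nat.lt_floor_add_one T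
  have h4 : 1 ≤ ⌊T⌋₊ := Nat.le_floor (by simpa using hT)
  have h5 : (1 : ℝ) ≤ (⌊T⌋₊ : ℝ) := by exact_mod_cast h4
  simp only [Function.comp_def]
  rw [Real.norm_eq_abs, Real.norm_eq_abs, abs_of_pos (by positivity), abs_of_pos (by positivity),
    mul_one_div, div_le_div_iff₀ (by positivity) (by positivity)]
  linarith

/-- Q1: there is an `e ∈ E`, `e ≠ 0`, with `L^τ(m) / L^τ(m + 1) = τ(e) Ω^τ` for all `τ`. -/
def RatioFormula (m : ℤ) (L : (E →+* ℂ) → ℂ → ℂ) (Ω : (E →+* ℂ) → ℂ) : Prop :=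
  ∃ e : E, e ≠ 0 ∧ ∀ τ : E →+* ℂ, L τ m / L τ (m + 1) = τ e * Ω τ

end

/-- **Ratios of successive critical values.** -/
theorem result :
    -- 0. the weights exist
    (∀ γ : ℝ, ∃ ρ, IsRational 0 γ ρ) ∧
    ∀ γ : ℝ, Real.pi / 2 < γ → ∀ ρ : ℕ → ℕ →₀ ℚ, IsRational 0 γ ρ →
    ∀ (E : Type) [Field E] [NumberField E] (m : ℤ) (k : ℕ) (b : ℕ → E) (L : (E →+* ℂ) → ℂ → ℂ),
      IsData m k b L →
    -- 1. the two values
    (∀ τ : E →+* ℂ,
      (fun N : ℕ => τ (approx m k b (ρ N)) - L τ m) =O[atTop] (fun N : ℕ => 1 / (N : ℝ)) ∧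
      (fun N : ℕ => τ (approx (m + 1) (k - 1) b (ρ N)) - L τ (m + 1)) =O[atTop]
        fun N : ℕ => 1 / (N : ℝ)) ∧
    -- 2. the ratio
    (∀ τ : E →+* ℂ, (fun N : ℕ => τ (ratio m k b (ρ N)) - L τ m / L τ (m + 1)) =O[atTop]
      fun N : ℕ => 1 / (N : ℝ)) ∧
    -- 3. Q1
    ∀ Ω : (E →+* ℂ) → ℂ, (∀ τ, Ω τ ≠ 0) →
      (RatioFormula m L Ω ↔ ∃ e : E, e ≠ 0 ∧ ∀ τ : E →+* ℂ,
        Tendsto (fun N => τ (e * ratio m k b (ρ N))) atTop (𝓝 (Ω τ))) ∧
      (RatioFormula m L Ω ↔ (∀ τ : E →+* ℂ, L τ m ≠ 0) ∧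
        ∃ D : ℕ, 1 ≤ D ∧ ∀ ε : ℝ, 0 < ε → ∀ N₀ : ℕ, ∃ N ≥ N₀, ∃ z : 𝓞 E, ∀ τ : E →+* ℂ,
          ‖D * (τ (ratio m k b (ρ N)) / Ω τ) - τ (z : E)‖ < ε) := by
  refine ⟨fun γ => exists_rational 0 γ, ?_⟩
  intro γ hγ ρ hρ E _ _ m k b L h
  have hk1 : 1 ≤ k := le_trans (by norm_num) h.two_le
  have hk2 : 1 ≤ k - 1 := by have := h.two_le; omega
  have hcast : (((m + 1 : ℤ) : ℝ)) + ((k - 1 : ℕ) : ℝ) = (m : ℝ) + k := by
    rw [Nat.cast_sub hk1]
    push_cast
    ring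
  have h1 : ∀ τ : E →+* ℂ,
      (fun N : ℕ => τ (approx m k b (ρ N)) - L τ m) =O[atTop] (fun N : ℕ => 1 / (N : ℝ)) := by
    intro τ
    have h2 := law hk1 (a := fun n => τ (b n)) (by simp [h.zero]) (h.summable τ) (h.eq τ) (h.mero τ)
      (h.an τ) hγ hρ
    refine h2.congr_left fun N => ?_
    rw [approx_map]
  have h2 : ∀ τ : E →+* ℂ,
      (fun N : ℕ => τ (approx (m + 1) (k - 1) b (ρ N)) - L τ (m + 1)) =O[atTop]
        (fun N : ℕ => 1 / (N : ℝ)) := by
    intro τ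
    have h2 := law (m := m + 1) hk2 (a := fun n => τ (b n)) (Λ := L τ) (by simp [h.zero])
      (fun s hs => h.summable τ s (by rw [hcast] at hs; exact hs))
      (fun s hs => h.eq τ s (by rw [hcast] at hs; exact hs)) (h.mero τ)
      (by have := h.an' τ; push_cast; exact this) hγ hρ
    have e : ((m + 1 : ℤ) : ℂ) = (m : ℂ) + 1 := by push_cast; ring
    rw [e] at h2
    refine h2.congr_left fun N => ?_
    rw [approx_map]
  have h3 : ∀ τ : E →+* ℂ, (fun N : ℕ => τ (ratio m k b (ρ N)) - L τ m / L τ (m + 1)) =O[atTop]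
      (fun N : ℕ => 1 / (N : ℝ)) := by
    intro τ
    refine (quot_bigO (h.ne τ) (h1 τ) (h2 τ)).congr_left fun N => ?_
    unfold ratio
    rw [map_div₀]
  have hlim : ∀ τ : E →+* ℂ, Tendsto (fun N : ℕ => τ (ratio m k b (ρ N))) atTop
      (𝓝 (L τ m / L τ (m + 1))) := by
    intro τ
    have h4 := (h3 τ).trans_tendsto tendsto_one_div_atTop_nhds_zero_nat
    have h5 := h4.add_const (L τ m / L τ (m + 1))
    simpa using h5
  refine ⟨fun τ => ⟨h1 τ, h2 τ⟩, h3, fun Ω hΩ => ⟨⟨?_, ?_⟩, ?_⟩⟩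
  · rintro ⟨e, he0, he⟩
    refine ⟨e⁻¹, inv_ne_zero he0, fun τ => ?_⟩
    have h4 := (hlim τ).const_mul (τ e⁻¹)
    have h5 : τ e⁻¹ * (L τ m / L τ (m + 1)) = Ω τ := by
      have h6 : τ e ≠ 0 := (map_ne_zero τ).2 he0
      rw [he τ, map_inv₀]
      field_simp
    rw [h5] at h4
    refine h4.congr fun N => ?_
    rw [map_mul]
  · rintro ⟨e, he0, he⟩
    refine ⟨e⁻¹, inv_ne_zero he0, fun τ => ?_⟩
    have h4 := (hlim τ).const_mul (τ e)
    have h5 := he τ
    simp only [map_mul] at h5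
    have h6 := tendsto_nhds_unique h5 h4
    have h7 : τ e ≠ 0 := (map_ne_zero τ).2 he0
    rw [h6, map_inv₀]
    field_simp
  · have h4 : ∀ τ : E →+* ℂ, (fun T : ℝ => τ (ratio m k b (ρ ⌊T⌋₊)) / Ω τ -
        L τ m / L τ (m + 1) / Ω τ) =O[atTop] (fun T : ℝ => 1 / T) := by
      intro τ
      refine ((floor_bigO (x := fun N => τ (ratio m k b (ρ N))) (h3 τ)).const_mul_left
        (Ω τ)⁻¹).congr_left fun T => ?_
      rw [div_eq_mul_inv _ (Ω τ), div_eq_mul_inv _ (Ω τ)]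
      ring
    have h5 := (lattice (b := fun τ T => τ (ratio m k b (ρ ⌊T⌋₊)) / Ω τ)
      (A := fun τ => L τ m / L τ (m + 1) / Ω τ) h4).1
    have h6 : (∃ D : ℕ, 1 ≤ D ∧ ∀ ε : ℝ, 0 < ε → ∀ N₀ : ℕ, ∃ N ≥ N₀, ∃ z : 𝓞 E, ∀ τ : E →+* ℂ,
          ‖D * (τ (ratio m k b (ρ N)) / Ω τ) - τ (z : E)‖ < ε) ↔
        ∃ e : E, ∀ τ : E →+* ℂ, L τ m / L τ (m + 1) / Ω τ = τ e := by
      rw [h5]
      refine exists_congr fun D => and_congr_right fun _ => ?_
      constructor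
      · intro h3 ε hε T₀
        obtain ⟨N, hN, z, hz⟩ := h3 ε hε ⌈T₀⌉₊
        refine ⟨N, (Nat.le_ceil T₀).trans (by exact_mod_cast hN), z, ?_⟩
        simpa using hz
      · intro h3 ε hε N₀
        obtain ⟨T, hT, z, hz⟩ := h3 ε hε N₀
        exact ⟨⌊T⌋₊, Nat.le_floor hT, z, hz⟩
    rw [h6]
    constructor
    · rintro ⟨e, he0, he⟩
      refine ⟨fun τ h7 => ?_, e, fun τ => ?_⟩
      · have h8 := he τ
        rw [h7, zero_div] at h8
        exact mul_ne_zero ((map_ne_zero τ).2 he0) (hΩ τ) h8.symm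
      · rw [he τ, mul_div_assoc, div_self (hΩ τ), mul_one]
    · rintro ⟨h7, e, he⟩
      refine ⟨e, ?_, fun τ => ?_⟩
      · rintro rfl
        obtain ⟨τ⟩ : Nonempty (E →+* ℂ) := inferInstance
        have h8 := he τ
        rw [map_zero] at h8
        exact div_ne_zero (div_ne_zero (h7 τ) (h.ne τ)) (hΩ τ) h8
      · rw [← he τ, div_mul_cancel₀ _ (hΩ τ)]

end Pool.Agent.Results.MP_c63a07_nt.EquivariantRatioApproximations
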