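import Pool.Agent.X252.SLE

/-!
# Ratios of successive critical values: cyclic and hyperelementary extensions

Let `M₀` be a pure motive of rank `n` over the totally imaginary number field `K` with coefficients in
`E` and without middle Hodge type, `m`, `m + 1` critical, and `L/K` a finite Galois extension. For the
fields `M` between `K` and `L` and the embeddings `τ` of `E` let
`t M τ = L(m, τ, M₀|M) / (L(m+1, τ, M₀|M) (i^{d_M/2} Δ_M)^n)`, supposed defined and not zero; the formula
of the problem for `M` says that `t M = e` for some `e` in `E`. The only input are the Brauer relations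
modulo `E` (`CriticalRatios`): Artin's formalism for the `L`-functions, and Deligne's formula
`c⁺/c⁻ = Δ^n` with the multiplicativity of `c⁺` and `c⁻` for the denominators.

1. The formula holds for `M` if it holds for all `M' ⊇ M` such that `Gal(L/M')` is hyperelementary.
2. For a prime `p` there is `k` prime to `p` such that `(t M)^k` is in `E` if the formula holds for all
   `M' ⊇ M` such that `Gal(L/M')` is `p`-hyperelementary.
3. If the formula holds for all `M' ⊇ M` with `L/M'` cyclic, then `(t M)^[L:M]` is in `E`.
4. Cyclic groups suffice for `K` if there are two such extensions of `K` of coprime degrees.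
-/

set_option autoImplicit false

namespace Pool.Agent.Results.MP_c63a07_nt.HyperelementaryFields

open Pool.Agent.X252.SL Pool.Agent.H302R3 NumberField

/-- **The ratios of critical values divided by the predicted numbers**, over the fields `M` between `K`
and `L`; `t M τ` is the component at the embedding `τ` of `E`. No component vanishes, and the Brauer
relations hold up to elements of `E`. -/
structure CriticalRatios (K L E : Type) [Field K] [Field L] [Field E] [Algebra K L]
    (t : IntermediateField K L → (E →+* ℂ) → ℂ) : Prop where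
  ne : ∀ M τ, t M τ ≠ 0
  brauer : ∀ l : IntermediateField K L →₀ ℤ,
    (∀ σ : L ≃ₐ[K] L, (l.sum fun M k => k * (fx M.fixingSubgroup σ : ℤ)) = 0) →
    ∃ e : E, ∀ τ, (l.prod fun M k => t M τ ^ k) = τ e

/-- **Ratios of successive critical values over the fields of a Galois extension.** -/
theorem result (K L E : Type) [Field K] [NumberField K] [IsTotallyComplex K] [Field L]
    [NumberField L] [Algebra K L] [IsGalois K L] [Field E] [NumberField E]
    (t : IntermediateField K L → (E →+* ℂ) → ℂ) (h : CriticalRatios K L E t) :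
    -- 1. hyperelementary groups
    (∀ M : IntermediateField K L, (∀ M' : IntermediateField K L, M ≤ M' →
      (∃ p : ℕ, p.Prime ∧ HypP p M'.fixingSubgroup) → ∃ e : E, ∀ τ, t M' τ = τ e) →
      ∃ e : E, ∀ τ, t M τ = τ e) ∧
    -- 2. one prime
    (∀ p : ℕ, p.Prime → ∃ k : ℕ, ¬ p ∣ k ∧ ∀ M : IntermediateField K L,
      (∀ M' : IntermediateField K L, M ≤ M' → HypP p M'.fixingSubgroup →
        ∃ e : E, ∀ τ, t M' τ = τ e) → ∃ e : E, ∀ τ, t M τ ^ k = τ e) ∧
    -- 3. cyclic groups
    (∀ M : IntermediateField K L, (∀ M' : IntermediateField K L, M ≤ M' →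
      IsCyclic M'.fixingSubgroup → ∃ e : E, ∀ τ, t M' τ = τ e) →
      ∃ e : E, ∀ τ, t M τ ^ Module.finrank M L = τ e) ∧
    -- 4. two extensions of coprime degrees
    (∀ (L' : Type) [Field L'] [NumberField L'] [Algebra K L'] [IsGalois K L']
      (t' : IntermediateField K L' → (E →+* ℂ) → ℂ), CriticalRatios K L' E t' → t ⊥ = t' ⊥ →
      (Module.finrank K L).Coprime (Module.finrank K L') →
      (∀ M : IntermediateField K L, IsCyclic M.fixingSubgroup → ∃ e : E, ∀ τ, t M τ = τ e) →
      (∀ M : IntermediateField K L', IsCyclic M.fixingSubgroup → ∃ e : E, ∀ τ, t' M τ = τ e) →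
      ∃ e : E, ∀ τ, t ⊥ τ = τ e) := by
  have hv : BrauerMult K L (ev t h.ne) := fun l hl => ev_prod t h.ne l (h.brauer l hl)
  refine ⟨fun M hM => ?_, fun p hp => ?_, fun M hM => ?_, fun L' _ _ _ _ t' h' htt hco hc hc' => ?_⟩
  · rw [← ev_one t h.ne]
    refine hv.all M fun M' h1 h2 => ?_
    rw [ev_one]
    exact hM M' h1 h2
  · obtain ⟨k, hk, h1⟩ := hv.p hp
    refine ⟨k, hk, fun M hM => ?_⟩
    rw [← ev_pow t h.ne]
    refine h1 M fun M' h2 h3 => ?_
    rw [ev_one]
    exact hM M' h2 h3
  · rw [← ev_pow t h.ne]
    refine hv.cyc M fun M' h1 h2 => ?_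
    rw [ev_one]
    exact hM M' h1 h2
  · have hv' : BrauerMult K L' (ev t' h'.ne) := fun l hl => ev_prod t' h'.ne l (h'.brauer l hl)
    have h1 := hv.cyc ⊥ fun M' _ h2 => by
      rw [ev_one]
      exact hc M' h2
    have h2 := hv'.cyc ⊥ fun M' _ h2 => by
      rw [ev_one]
      exact hc' M' h2
    have h3 : ev t' h'.ne ⊥ = ev t h.ne ⊥ := by
      unfold ev
      congr 1
      funext τ
      exact Units.ext (congrFun htt.symm τ)
    rw [IntermediateField.finrank_bot'] at h1 h2
    rw [h3] at h2
    rw [← ev_one t h.ne]
    have h4 := Nat.dvd_gcd (orderOf_dvd_of_pow_eq_one h1) (orderOf_dvd_of_pow_eq_one h2)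
    rw [hco] at h4
    exact orderOf_eq_one_iff.1 (Nat.dvd_one.1 h4)

end Pool.Agent.Results.MP_c63a07_nt.HyperelementaryFields
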