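import Pool.Agent.X156.GL.CS

/-!
# Ratios of successive critical values: one absolutely convergent sum over the primes, at every integer

`E` is a number field, `M` a motive over `ℚ` (in the problem: `Res_{F/ℚ} M_0`) of weight `w` with coefficients in `E`, and
`m` any integer, in particular any `m` such that `m` and `m + 1` are critical (there is no restriction to one side of the
centre, nor to the strip). Used are the traces of Frobenius `a_p(k) = Tr(Frob_p^k | M_λ^{I_p}) ∈ E` and for every embedding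
`τ : E → ℂ` the eigenvalues `α^τ_{p,1}, …, α^τ_{p,d}` (completed by zeros):

`∑_i (α^τ_{p,i})^k = τ(a_p(k))`,  `|α^τ_{p,i}| ≤ p^(w/2)`,
`L^τ(s) = ∏_p ∏_i (1 - α^τ_{p,i} p^{-s})⁻¹` for `Re s > w/2 + 1`.

Hypothesis on the continuation: `L^τ` continues to a function which is meromorphic at the real points `≥ m` and
holomorphic at `m` and `m + 1`; there is no hypothesis on zeros apart from `L^τ(m+1) ≠ 0` (as in the problem). For a fixed
`γ > π/2` put

`D^τ(T) = - ∑_p ∑_{k ≥ 1} τ(a_p(k)) p^{-km} (1 - p^{-k}) exp(iγ k log p / T) / (k Γ(1 + k log p / T))`,  `T > 0`.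

The sum converges absolutely, wherever `m` lies. Then, as `T → ∞`:

1. `D^τ(T) = n_τ (log T - Λ(γ)) - r_τ + O(1/T)` where `n_τ` is the order of `L^τ` at `m` and `exp(r_τ)` is the quotient
   of its leading coefficient at `m` and of `L^τ(m+1)`.
2. If `L^τ(m) ≠ 0` then `exp(-D^τ(T)) = L^τ(m) / L^τ(m+1) + O(1/T)`; `L^τ(m) = 0` if and only if `Re D^τ(T) → ∞`.
3. Let `Ω^τ ≠ 0` be complex numbers (in the problem `Ω^τ = (i^(d_F/2) Δ_F)^n L_∞(m+1, τ, M) / L_∞(m, τ, M)`). Then for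
   `e ∈ E`, `e ≠ 0`: `L^τ(m) / L^τ(m+1) = τ(e) Ω^τ` for all `τ` if and only if `Ω^τ exp(D^τ(T)) → 1/τ(e)` for all `τ`.
4. So DELIGNE'S CONJECTURE ON THE RATIO for `M` and `m`, `∃ e ∈ E^×, ∀ τ, L^τ(m) / L^τ(m+1) = τ(e) Ω^τ`, holds if and only
   if for some `e ∈ E^×` one has `Ω^τ exp(D^τ(T)) → τ(e)` for all `τ`, if and only if this holds with the error `O(1/T)`.

Proof: the rotated law of `Pool.Agent.X156.GL` at any point of the plane.
-/

set_option autoImplicit false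

open Filter Topology Asymptotics

namespace Pool.Agent.Results.MP_c63a07_nt.RatiosFromOneSum

variable {E : Type} [Field E] {d : ℕ}

/-- The traces `a_p(k) ∈ E`, `k ≥ 1`, and the eigenvalues `α^τ_{p,i}` of Frobenius, for the embeddings `τ` of `E`. -/
structure IsLocalData (a : Nat.Primes → ℕ → E) (α : (E →+* ℂ) → Nat.Primes → Fin d → ℂ) (w : ℤ) : Prop where
  /-- the power sums of the eigenvalues are the conjugates of the traces -/
  trace : ∀ τ p k, ∑ i, α τ p i ^ (k + 1) = τ (a p (k + 1))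
  /-- the eigenvalues have absolute value at most `p^(w/2)` -/
  le : ∀ τ p i, ‖α τ p i‖ ≤ ((p : ℕ) : ℝ) ^ ((w : ℝ) / 2)

/-- The term of `D^τ(T)` for the prime `p = x.1` and the exponent `k = x.2 + 1`. -/
noncomputable def term (a : Nat.Primes → ℕ → E) (τ : E →+* ℂ) (m : ℤ) (γ T : ℝ) (x : Nat.Primes × ℕ) : ℂ :=
  -(τ (a x.1 (x.2 + 1))) * ((((x.1 : ℕ) : ℂ) ^ m)⁻¹) ^ (x.2 + 1) * (1 - (((x.1 : ℕ) : ℂ)⁻¹) ^ (x.2 + 1)) *
      Complex.exp ((γ * ((x.2 + 1) * Real.log (x.1 : ℕ) / T) : ℝ) * Complex.I) /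
    (((x.2 + 1) * Real.Gamma (1 + (x.2 + 1) * Real.log (x.1 : ℕ) / T) : ℝ) : ℂ)

/-- The rotated sum `D^τ(T)`. -/
noncomputable def D (a : Nat.Primes → ℕ → E) (τ : E →+* ℂ) (m : ℤ) (γ T : ℝ) : ℂ :=
  ∑' x, term a τ m γ T x

/-- The constant `Λ(γ) = ∫_0^∞ (e^{-t} - e^{iγt} / Γ(1 + t)) dt / t`. -/
noncomputable def Lambda (γ : ℝ) : ℂ := ∫ t in Set.Ioi (0 : ℝ),
  (Complex.exp (-(t : ℂ)) - Complex.exp ((γ * t : ℝ) * Complex.I) * ((Real.Gamma (1 + t))⁻¹ : ℝ)) / t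

/-- `L` is the `L`-function with the local roots `β` for `Re s > w/2 + 1`, continued to a function which is
meromorphic at the real points `≥ m`, holomorphic at `m` and `m + 1`, and nonzero at `m + 1`. -/
structure IsContinuation (β : Nat.Primes → Fin d → ℂ) (w m : ℤ) (L : ℂ → ℂ) : Prop where
  prod : ∀ s : ℂ, (w : ℝ) / 2 + 1 < s.re →
    HasProd (fun p : Nat.Primes => ∏ i, (1 - β p i * ((p : ℕ) : ℂ) ^ (-s))⁻¹) (L s)
  mero : ∀ x : ℝ, (m : ℝ) ≤ x → MeromorphicAt L (x : ℂ)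
  holo : AnalyticAt ℂ L m
  holo' : AnalyticAt ℂ L (m + 1)
  ne_zero : L (m + 1) ≠ 0

open Pool.Agent.X287.CR in
theorem sys {a : Nat.Primes → ℕ → E} {α : (E →+* ℂ) → Nat.Primes → Fin d → ℂ} {w : ℤ}
    (h : IsLocalData a α w) (τ : E →+* ℂ) :
    CSys ((w : ℝ) / 2) (fun p : Nat.Primes => (p : ℕ)) (α τ) where
  cnt := inferInstance
  two_le := fun v => v.2.two_le
  sum := fun σ hσ => by
    have h1 : Summable fun n : ℕ => (n : ℝ) ^ (-σ) := Real.summable_nat_rpow.2 (by linarith)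
    exact h1.comp_injective Subtype.val_injective
  le := fun v i => h.le τ v i

open Pool.Agent.X287.CR in
theorem tm_eq {a : Nat.Primes → ℕ → E} {α : (E →+* ℂ) → Nat.Primes → Fin d → ℂ} {w : ℤ}
    (h : IsLocalData a α w) (τ : E →+* ℂ) (m : ℤ) (γ T : ℝ) (x : Nat.Primes × ℕ) :
    tm (fun p : Nat.Primes => (p : ℕ)) (α τ) (m : ℂ) γ T x -
      tm (fun p : Nat.Primes => (p : ℕ)) (α τ) ((m + 1 : ℤ) : ℂ) γ T x = term a τ m γ T x := by
  unfold tm term lam
  rw [h.trace]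
  have hp : ((x.1 : ℕ) : ℂ) ≠ 0 := by exact_mod_cast x.1.2.ne_zero
  have hl : ((Real.log (x.1 : ℕ) : ℝ) : ℂ) = Complex.log ((x.1 : ℕ) : ℂ) := by
    rw [Complex.ofReal_log (Nat.cast_nonneg _)]
    push_cast
    rfl
  have e : ∀ n : ℤ, Complex.exp (-((n : ℂ) * (((x.2 + 1) * Real.log (x.1 : ℕ) : ℝ) : ℂ))) =
      ((((x.1 : ℕ) : ℂ) ^ n)⁻¹) ^ (x.2 + 1) := by
    intro n
    rw [← zpow_neg, ← Complex.cpow_intCast, Complex.cpow_def_of_ne_zero hp, ← hl, ← Complex.exp_nat_mul]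
    congr 1
    push_cast
    ring
  rw [e m, e (m + 1)]
  have e2 : ((((x.1 : ℕ) : ℂ) ^ (m + 1))⁻¹) ^ (x.2 + 1) =
      ((((x.1 : ℕ) : ℂ) ^ m)⁻¹) ^ (x.2 + 1) * (((x.1 : ℕ) : ℂ)⁻¹) ^ (x.2 + 1) := by
    rw [zpow_add₀ hp, zpow_one, mul_inv, mul_pow]
  rw [e2]
  ring

open Pool.Agent.X287.CR Pool.Agent.X156.GL in
/-- **Ratios of successive critical values from one sum over the primes.** -/
theorem result (E : Type) [Field E] [NumberField E] (d : ℕ) (w m : ℤ)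
    (a : Nat.Primes → ℕ → E) (α : (E →+* ℂ) → Nat.Primes → Fin d → ℂ) (hα : IsLocalData a α w)
    (L : (E →+* ℂ) → ℂ → ℂ) (hL : ∀ τ, IsContinuation (α τ) w m (L τ)) (γ : ℝ) (hγ : Real.pi / 2 < γ)
    (Ω : (E →+* ℂ) → ℂ) (hΩ : ∀ τ, Ω τ ≠ 0) :
    -- absolute convergence
    (∀ τ, ∀ T : ℝ, 0 < T → Summable fun x => ‖term a τ m γ T x‖) ∧
    -- 1. the asymptotic formula
    (∀ τ, ∃ (n : ℕ) (r : ℂ), analyticOrderAt (L τ) m = n ∧
      meromorphicTrailingCoeffAt (L τ) m / L τ (m + 1) = Complex.exp r ∧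
      (fun T : ℝ => D a τ m γ T - (n * (Real.log T - Lambda γ) - r)) =O[atTop] (fun T : ℝ => 1 / T)) ∧
    -- 2. the ratios
    (∀ τ, (L τ m = 0 ↔ Tendsto (fun T : ℝ => (D a τ m γ T).re) atTop atTop) ∧
      (L τ m ≠ 0 → (fun T : ℝ => Complex.exp (-D a τ m γ T) - L τ m / L τ (m + 1)) =O[atTop]
        (fun T : ℝ => 1 / T))) ∧
    -- 3. the formula for the ratio
    (∀ e : E, e ≠ 0 → ((∀ τ, L τ m / L τ (m + 1) = τ e * Ω τ) ↔
      ∀ τ, Tendsto (fun T : ℝ => Ω τ * Complex.exp (D a τ m γ T)) atTop (𝓝 (1 / τ e)))) ∧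
    -- 4. the conjecture
    ((∃ e : E, e ≠ 0 ∧ ∀ τ, L τ m / L τ (m + 1) = τ e * Ω τ) ↔
      ∃ e : E, e ≠ 0 ∧ ∀ τ, Tendsto (fun T : ℝ => Ω τ * Complex.exp (D a τ m γ T)) atTop (𝓝 (τ e))) ∧
    ((∃ e : E, e ≠ 0 ∧ ∀ τ, L τ m / L τ (m + 1) = τ e * Ω τ) ↔
      ∃ e : E, e ≠ 0 ∧ ∀ τ, (fun T : ℝ => Ω τ * Complex.exp (D a τ m γ T) - τ e) =O[atTop]
        (fun T : ℝ => 1 / T)) := by
  have G := fun τ => sys hα τ
  have hprod : ∀ τ, ∀ s : ℂ, 1 + (w : ℝ) / 2 < s.re →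
      HasProd (fac (fun p : Nat.Primes => (p : ℕ)) (α τ) s) (L τ s) := fun τ s hs =>
    (hL τ).prod s (by linarith)
  have hlaw : ∀ τ, ∀ j : ℤ, m ≤ j → ∃ (n : ℤ) (r₀ : ℂ), meromorphicOrderAt (L τ) j = n ∧
      meromorphicTrailingCoeffAt (L τ) j = Complex.exp r₀ ∧
      Asy (Lambda γ) (Su (fun p : Nat.Primes => (p : ℕ)) (α τ) j γ) n r₀ := by
    intro τ j hj
    have hj' : (m : ℝ) ≤ j := by exact_mod_cast hj
    exact law_all (G τ) (hprod τ) (s₀ := j) (fun x hx0 _ => by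
        have := (hL τ).mero (j + x) (by linarith)
        push_cast at this
        exact this) hγ
  have hsumm : ∀ τ, ∀ T : ℝ, 0 < T → Summable fun x => ‖term a τ m γ T x‖ := by
    intro τ T hT
    have h1 := tm_summable_all (G τ) (m : ℂ) γ hT
    have h2 := tm_summable_all (G τ) ((m + 1 : ℤ) : ℂ) γ hT
    refine Summable.of_nonneg_of_le (fun x => norm_nonneg _) (fun x => ?_) (h1.add h2)
    rw [← tm_eq hα]
    exact norm_sub_le _ _
  have hD : ∀ τ, ∀ T : ℝ, 0 < T → D a τ m γ T = Su (fun p : Nat.Primes => (p : ℕ)) (α τ) (m : ℂ) γ T -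
      Su (fun p : Nat.Primes => (p : ℕ)) (α τ) ((m + 1 : ℤ) : ℂ) γ T := by
    intro τ T hT
    unfold D Su
    rw [← Summable.tsum_sub (tm_summable_all (G τ) (m : ℂ) γ hT).of_norm
      (tm_summable_all (G τ) ((m + 1 : ℤ) : ℂ) γ hT).of_norm]
    exact tsum_congr fun x => (tm_eq hα τ m γ T x).symm
  -- the combined law
  have hmain : ∀ τ, ∃ (n : ℕ) (r : ℂ), analyticOrderAt (L τ) m = n ∧
      meromorphicTrailingCoeffAt (L τ) m / L τ (m + 1) = Complex.exp r ∧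
      Asy (Lambda γ) (D a τ m γ) n r ∧ (n = 0 → L τ m / L τ (m + 1) = Complex.exp r) ∧
      (L τ m = 0 ↔ 0 < n) := by
    intro τ
    obtain ⟨n₁, r₁, h1, h2, h3⟩ := hlaw τ m le_rfl
    obtain ⟨n₂, r₂, k1, k2, k3⟩ := hlaw τ (m + 1) (by omega)
    have hcast : (((m + 1 : ℤ) : ℂ)) = (m : ℂ) + 1 := by push_cast; rfl
    obtain ⟨v1, v2, v3⟩ := value (hL τ).holo h1 h2
    have hol' : AnalyticAt ℂ (L τ) ((m + 1 : ℤ) : ℂ) := by rw [hcast]; exact (hL τ).holo'
    obtain ⟨w1, w2, w3⟩ := value hol' k1 k2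
    have hn2 : n₂ = 0 := by
      by_contra h
      have := w3 h
      rw [hcast] at this
      exact (hL τ).ne_zero this
    have hval : L τ (m + 1) = Complex.exp r₂ := by
      have := w2 hn2
      rwa [hcast] at this
    obtain ⟨k, rfl⟩ := Int.eq_ofNat_of_zero_le v1
    have hq : meromorphicTrailingCoeffAt (L τ) m / L τ (m + 1) = Complex.exp (r₁ - r₂) := by
      rw [h2, hval, Complex.exp_sub]
    refine ⟨k, r₁ - r₂, an_order (hL τ).holo h1, hq, ?_, fun hk => ?_, ?_⟩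
    · unfold Asy at h3 k3 ⊢
      have h4 := h3.sub k3
      refine h4.congr' ?_ EventuallyEq.rfl
      filter_upwards [eventually_gt_atTop 0] with T hT
      rw [hD τ T hT, hn2]
      push_cast
      ring
    · rw [v2 (by exact_mod_cast hk), hval, Complex.exp_sub]
    · constructor
      · intro h
        by_contra h5
        have h6 : ((k : ℕ) : ℤ) = 0 := by omega
        have h7 := v2 h6
        rw [h] at h7
        exact (Complex.exp_ne_zero r₁) h7.symm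
      · intro h
        exact v3 (by omega)
  have hzero : ∀ τ, (L τ m = 0 ↔ Tendsto (fun T : ℝ => (D a τ m γ T).re) atTop atTop) := by
    intro τ
    obtain ⟨n, r, h1, h2, h3, h4, h5⟩ := hmain τ
    rw [h5, ← h3.pos_iff]
    exact_mod_cast Iff.rfl
  have hLne : ∀ τ, L τ (m + 1) ≠ 0 := fun τ => (hL τ).ne_zero
  -- the formula, with a rate
  have hone : ∀ τ, ∀ B : ℂ, B ≠ 0 → (L τ m / L τ (m + 1) = B ↔
      Tendsto (fun T : ℝ => Complex.exp (D a τ m γ T)) atTop (𝓝 (1 / B))) := by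
    intro τ B hB
    obtain ⟨n, r, h1, h2, h3, h4, h5⟩ := hmain τ
    rw [← h3.tend_iff hB]
    constructor
    · intro h
      have hn : n = 0 := by
        by_contra hn
        have h6 : L τ m = 0 := h5.2 (Nat.pos_of_ne_zero hn)
        rw [h6, zero_div] at h
        exact hB h.symm
      exact ⟨by exact_mod_cast hn, by rw [← h4 hn, h]⟩
    · rintro ⟨h, h'⟩
      rw [h4 (by exact_mod_cast h), h']
  have hrate : ∀ τ, L τ m ≠ 0 → (fun T : ℝ => Complex.exp (D a τ m γ T) - 1 / (L τ m / L τ (m + 1)))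
      =O[atTop] (fun T : ℝ => 1 / T) := by
    intro τ h
    obtain ⟨n, r, h1, h2, h3, h4, h5⟩ := hmain τ
    have hn : n = 0 := by
      by_contra hn
      exact h (h5.2 (Nat.pos_of_ne_zero hn))
    rw [h4 hn]
    exact h3.exp_rate (by exact_mod_cast hn)
  have hrate' : ∀ τ, L τ m ≠ 0 → (fun T : ℝ => Complex.exp (-D a τ m γ T) - L τ m / L τ (m + 1))
      =O[atTop] (fun T : ℝ => 1 / T) := by
    intro τ h
    obtain ⟨n, r, h1, h2, h3, h4, h5⟩ := hmain τ
    have hn : n = 0 := by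
      by_contra hn
      exact h (h5.2 (Nat.pos_of_ne_zero hn))
    have h6 : Asy 0 (fun T => -D a τ m γ T) 0 (-r) := by
      have h7 := IsBigO.neg_left h3
      refine h7.congr_left fun T => ?_
      rw [hn]
      push_cast
      ring
    have h8 := h6.exp_rate rfl
    rw [h4 hn]
    have e : (1 : ℂ) / Complex.exp (-r) = Complex.exp r := by
      rw [Complex.exp_neg]
      field_simp
    rwa [e] at h8
  have hdel : ∀ e : E, e ≠ 0 → ((∀ τ, L τ m / L τ (m + 1) = τ e * Ω τ) ↔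
      ∀ τ, Tendsto (fun T : ℝ => Ω τ * Complex.exp (D a τ m γ T)) atTop (𝓝 (1 / τ e))) := by
    intro e he
    refine forall_congr' fun τ => ?_
    have h1 : τ e ≠ 0 := (map_ne_zero τ).2 he
    have h2 := hΩ τ
    rw [hone τ (τ e * Ω τ) (mul_ne_zero h1 h2)]
    constructor
    · intro h3
      have h4 := h3.const_mul (Ω τ)
      have e2 : Ω τ * (1 / (τ e * Ω τ)) = 1 / τ e := by field_simp
      rwa [e2] at h4
    · intro h3
      have h4 := h3.const_mul ((Ω τ)⁻¹)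
      have e2 : (Ω τ)⁻¹ * (1 / τ e) = 1 / (τ e * Ω τ) := by field_simp
      rw [e2] at h4
      refine h4.congr fun T => ?_
      field_simp
  have h0T : Tendsto (fun T : ℝ => 1 / T) atTop (𝓝 (0 : ℝ)) :=
    tendsto_const_nhds.div_atTop tendsto_id
  refine ⟨hsumm, fun τ => ?_, fun τ => ⟨hzero τ, hrate' τ⟩, hdel, ?_, ?_⟩
  · obtain ⟨n, r, h1, h2, h3, h4, h5⟩ := hmain τ
    refine ⟨n, r, h1, h2, ?_⟩
    have h6 : Asy (Lambda γ) (D a τ m γ) ((n : ℕ) : ℤ) r := h3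
    unfold Asy at h6
    simpa using h6
  · constructor
    · rintro ⟨e, he, h⟩
      refine ⟨e⁻¹, inv_ne_zero he, fun τ => ?_⟩
      have h1 := (hdel e he).1 h τ
      rwa [map_inv₀, ← one_div]
    · rintro ⟨e, he, h⟩
      refine ⟨e⁻¹, inv_ne_zero he, (hdel e⁻¹ (inv_ne_zero he)).2 fun τ => ?_⟩
      rw [map_inv₀, one_div, inv_inv]
      exact h τ
  · constructor
    · rintro ⟨e, he, h⟩
      refine ⟨e⁻¹, inv_ne_zero he, fun τ => ?_⟩
      have h1 : τ e ≠ 0 := (map_ne_zero τ).2 he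
      have h2 : L τ m ≠ 0 := by
        intro h3
        have h4 := h τ
        rw [h3, zero_div] at h4
        exact mul_ne_zero h1 (hΩ τ) h4.symm
      have h5 := (hrate τ h2).const_mul_left (Ω τ)
      refine h5.congr_left fun T => ?_
      rw [h τ, map_inv₀]
      have := hΩ τ
      field_simp
    · rintro ⟨e, he, h⟩
      refine ⟨e⁻¹, inv_ne_zero he, (hdel e⁻¹ (inv_ne_zero he)).2 fun τ => ?_⟩
      rw [map_inv₀, one_div, inv_inv]
      have h3 := ((h τ).trans_tendsto h0T).add_const (τ e)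
      rw [zero_add] at h3
      refine h3.congr fun T => ?_
      ring

end Pool.Agent.Results.MP_c63a07_nt.RatiosFromOneSum
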